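import Pool.Agent.H63.PU.Targets

/-!
# Module FLIP: a symbolic flip is a real flip (MP_6ed97a_co, upper bound)
-/

namespace Pool.Agent.H5.PU

open Pool.Agent.H53.PK Pool.Agent.H63.PU

/-- flip a part -/
def fl (z : Item × List ℕ) : Item × List ℕ := (z.1.flip, z.2.reverse)

theorem foldl_push (l : List Item) : ∀ acc : List Item,
    l.foldl (fun acc y => y.flip :: acc) acc = (l.map Item.flip).reverse ++ acc := by
  induction l with
  | nil => intro acc; simp
  | cons x l ih => intro acc; simp [ih]

theorem itemR_flip {n : ℕ} {val : ℕ → ℕ} {z : Item × List ℕ} (h : ItemR n val z.1 z.2) :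
    ItemR n val (fl z).1 (fl z).2 := by
  obtain ⟨it, l⟩ := z
  cases it with
  | gap => exact trivial
  | tok k lo hi =>
    cases k with
    | s =>
      obtain ⟨v, hv, h1, h2⟩ := h
      refine ⟨v, ?_, h1, h2⟩
      show l.reverse = [v]
      rw [show l = [v] from hv]
      rfl
    | p =>
      obtain ⟨h0, h1, h2⟩ := h
      refine ⟨?_, ?_, ?_⟩
      · show Up n (l.reverse).reverse
        rw [List.reverse_reverse]; exact h0
      · intro hl
        show l.reverse.getLast? = _
        rw [List.getLast?_reverse]; exact h1 hl
      · intro hl
        show l.reverse.head? = _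
        rw [List.head?_reverse]; exact h2 hl
    | m =>
      obtain ⟨h0, h1, h2⟩ := h
      refine ⟨h0, ?_, ?_⟩
      · intro hl
        show l.reverse.head? = _
        rw [List.head?_reverse]; exact h1 hl
      · intro hl
        show l.reverse.getLast? = _
        rw [List.getLast?_reverse]; exact h2 hl

theorem flatten_fl (L : List (Item × List ℕ)) :
    (((L.map fl).reverse).map Prod.snd).flatten = ((L.map Prod.snd).flatten).reverse := by
  rw [List.reverse_flatten, List.map_reverse, List.map_map, List.map_map]
  rfl

theorem edgeR_fl (hE : T_EDGE) (n : ℕ) (L M : List (Item × List ℕ)) (v : ℕ) :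
    EdgeR n ((L.map fl).reverse ++ M) v ↔ EdgeR n (L ++ M) v := by
  unfold EdgeR
  constructor
  · rintro ⟨x, hx, hv⟩
    rcases List.mem_append.1 hx with hx | hx
    · rw [List.mem_reverse, List.mem_map] at hx
      obtain ⟨y, hy, rfl⟩ := hx
      exact ⟨y, List.mem_append_left _ hy, (hE.2.1 n v y.2).1 hv⟩
    · exact ⟨x, List.mem_append_right _ hx, hv⟩
  · rintro ⟨x, hx, hv⟩
    rcases List.mem_append.1 hx with hx | hx
    · refine ⟨fl x, List.mem_append_left _ ?_, (hE.2.1 n v x.2).2 hv⟩
      rw [List.mem_reverse, List.mem_map]
      exact ⟨x, hx, rfl⟩
    · exact ⟨x, List.mem_append_right _ hx, hv⟩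

theorem flip (hP : T_PUT) (hE : T_EDGE) : T_FLIP := by
  intro W n val k R hW hn hval hperm hitem
  cases R with
  | nil =>
    exfalso
    have := hperm.length_eq
    simp at this
    omega
  | cons x Rl =>
    -- the first parts
    set L : List (Item × List ℕ) := x :: Rl.take k with hL
    have hsplit : x :: Rl = L ++ Rl.drop k := by
      rw [hL, List.cons_append, List.take_append_drop]
    have hrev : (L.map fl).reverse = ((Rl.take k).map fl).reverse ++ [fl x] := by
      rw [hL, List.map_cons, List.reverse_cons]
    set S : List (Item × List ℕ) := ((Rl.take k).map fl).reverse with hS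
    have hcat : S ++ fl x :: Rl.drop k = (L.map fl).reverse ++ Rl.drop k := by
      rw [hrev, List.append_assoc, List.singleton_append]
    have hflat : ((S ++ fl x :: Rl.drop k).map Prod.snd).flatten =
        prefixReversal ((L.map Prod.snd).flatten.length) (((x :: Rl).map Prod.snd).flatten) := by
      rw [hcat, List.map_append, List.flatten_append, flatten_fl, hsplit, List.map_append,
        List.flatten_append]
      unfold prefixReversal
      rw [List.take_left, List.drop_left]
    have hp2 : ((S ++ fl x :: Rl.drop k).map Prod.snd).flatten.Perm (List.range' 1 n) := by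
      rw [hflat]
      refine List.Perm.trans ?_ hperm
      unfold prefixReversal
      refine ((List.reverse_perm _).append_right _).trans ?_
      rw [List.take_append_drop]
    have hit2 : ∀ z ∈ S ++ fl x :: Rl.drop k, ItemR n val z.1 z.2 := by
      intro z hz
      rw [hcat] at hz
      rcases List.mem_append.1 hz with hz | hz
      · rw [List.mem_reverse, List.mem_map] at hz
        obtain ⟨y, hy, rfl⟩ := hz
        refine itemR_flip (hitem y ?_)
        rw [hsplit]
        exact List.mem_append_left _ hy
      · refine hitem z ?_
        rw [hsplit]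
        exact List.mem_append_right _ hz
    obtain ⟨R', h1, h2, h3, h4⟩ := hP W n val (fl x) (Rl.drop k) S hW hn hval hp2 hit2
    have hflipI : flipI W k ((x :: Rl).map Prod.fst) =
        ((S.map Prod.fst) ++ (put W (fl x).1 ((Rl.drop k).map Prod.fst)).1,
          (put W (fl x).1 ((Rl.drop k).map Prod.fst)).2) := by
      show (((Rl.map Prod.fst).take k).foldl (fun acc y => y.flip :: acc)
        (put W x.1.flip ((Rl.map Prod.fst).drop k)).1, (put W x.1.flip ((Rl.map Prod.fst).drop k)).2)
        = _
      rw [foldl_push, ← List.map_drop, ← List.map_take, hS, List.map_reverse, List.map_map,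
        List.map_map]
      rfl
    refine ⟨S ++ R', ?_, ?_, ?_, ?_⟩
    · rw [hflipI, List.map_append, h1]
    · have hcat2 : ((S ++ R').map Prod.snd).flatten =
          prefixReversal ((L.map Prod.snd).flatten.length)
            (((x :: Rl).map Prod.snd).flatten) := by
        rw [← hflat, List.map_append, List.flatten_append, h2, List.map_append,
          List.flatten_append]
      rcases Nat.eq_zero_or_pos ((L.map Prod.snd).flatten.length) with h0 | h0
      · refine ⟨[], by simp, by simp, ?_⟩
        rw [hcat2, h0]
        simp [prefixReversal]
      · refine ⟨[(L.map Prod.snd).flatten.length], by simp, ?_, ?_⟩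
        · intro j hj
          rw [List.mem_singleton] at hj
          subst hj
          refine ⟨h0, ?_⟩
          have hl := hperm.length_eq
          rw [List.length_range', hsplit, List.map_append, List.flatten_append,
            List.length_append] at hl
          omega
        · rw [hcat2]
          rfl
    · intro z hz
      rcases List.mem_append.1 hz with hz | hz
      · exact hit2 z (List.mem_append_left _ hz)
      · exact h3 z hz
    · rw [hflipI]
      have hEq : EdgeR n (S ++ fl x :: Rl.drop k) = EdgeR n (x :: Rl) := by
        funext v
        apply propext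
        rw [hcat, hsplit]
        exact edgeR_fl hE n L (Rl.drop k) v
      rw [hEq] at h4
      exact h4

end Pool.Agent.H5.PU
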